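import Pool.Agent.Z476.Sb
import Pool.Agent.Y882.Cum

/-!
# The least prime `p` such that `m - p` has at most `r` prime factors

Let `c = r + 1 - log 4 / log 3` (`2.738…`, `3.738…`, `4.738…` for `r = 3, 4, 5`).  (1) For `θ > 2 / c` every
sufficiently large even `N` has the expected order of magnitude of primes `p < N ^ θ`, `p > N ^ θ / 4`, such that
`N - p` has at most `r` prime factors, all of them at least `N ^ (θ / 9)`.  (2) For `1 / c < θ ≤ 2 / c` the same holds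
for all but `C X ^ (2 / c - θ + ε)` of the even `N ≤ X`.
-/

set_option autoImplicit false

open Finset Filter

namespace Pool.Agent.Results.MP_bae66e_nt.LeastPrimeOfAlmostGoldbach

/-- the variable part of the singular series of the Goldbach problem -/
noncomputable def sing (N : ℕ) : ℝ :=
  ∏ p ∈ N.primeFactors.erase 2, (((p : ℝ) - 1) / ((p : ℝ) - 2))

open Classical in
/-- The number of the primes `p < N` with `N ^ θ / 4 < p < N ^ θ` such that `N - p` has at most `r`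
prime factors (counted with multiplicity), all of them at least `w`. -/
noncomputable def smallPrimes (r : ℕ) (θ w : ℝ) (N : ℕ) : ℕ :=
  ((range N).filter (fun p : ℕ => p.Prime ∧ (N : ℝ) ^ θ / 4 < p ∧ (p : ℝ) < (N : ℝ) ^ θ ∧
    (N - p).primeFactorsList.length ≤ r ∧
    ∀ q : ℕ, q.Prime → q ∣ (N - p) → w ≤ q)).card

lemma sing_eq (N : ℕ) : sing N = Pool.Agent.Y882.sgs N := rfl

open Classical in
lemma every (r : ℕ) (θ c : ℝ) (hc : c = r + 1 - Real.log 4 / Real.log 3) (hθ0 : 0 < θ) (hθ1 : θ < 1)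
    (hcθ : 2 < c * θ) :
    ∃ δ : ℝ, 0 < δ ∧ ∃ N₀ : ℕ, ∀ N : ℕ, N₀ ≤ N → Even N →
      δ * sing N * ((N : ℝ) ^ θ / Real.log N ^ 2) ≤ (smallPrimes r θ ((N : ℝ) ^ (θ / 9)) N : ℝ) := by
  obtain ⟨δ, hδ, N0, H⟩ := Pool.Agent.Z476.all r θ (θ / 9) hθ0 hθ1.le (by linarith) (by
    have h1 : 2 / θ < c := by
      rw [div_lt_iff₀ hθ0]
      exact hcθ
    linarith)
  have ev : ∀ᶠ N : ℕ in atTop, (2 : ℝ) ≤ (N : ℝ) ^ (1 - θ) :=
    ((tendsto_rpow_atTop (by linarith)).comp tendsto_natCast_atTop_atTop).eventually_ge_atTop _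
  obtain ⟨N1, hN1⟩ := eventually_atTop.1 ev
  refine ⟨δ, hδ, max (max N0 N1) 1, fun N hN hev => ?_⟩
  have a0 : N0 ≤ N := ((le_max_left _ _).trans (le_max_left _ _)).trans hN
  have a1 := hN1 N (((le_max_right _ _).trans (le_max_left _ _)).trans hN)
  have a2 : 1 ≤ N := (le_max_right _ _).trans hN
  have hNr : (1 : ℝ) ≤ N := by exact_mod_cast a2
  have hN0 : (0 : ℝ) < N := by linarith
  have hx0 : 0 < (N : ℝ) ^ θ := by positivity
  have hx : (N : ℝ) ^ θ ≤ N / 2 := by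
    rw [le_div_iff₀ (by norm_num)]
    calc (N : ℝ) ^ θ * 2 ≤ (N : ℝ) ^ θ * (N : ℝ) ^ (1 - θ) := mul_le_mul_of_nonneg_left a1 hx0.le
      _ = N := by
          rw [← Real.rpow_add hN0]
          have : θ + (1 - θ) = 1 := by ring
          rw [this, Real.rpow_one]
  have h1 := H N a0 hev ((N : ℝ) ^ θ) le_rfl hx
  rw [sing_eq]
  refine h1.trans ?_
  unfold smallPrimes
  have h3 : Pool.Agent.Z476.gd r ((N : ℝ) ^ θ) ((N : ℝ) ^ (θ / 9)) N ⊆
      (range N).filter (fun p : ℕ => p.Prime ∧ (N : ℝ) ^ θ / 4 < p ∧ (p : ℝ) < (N : ℝ) ^ θ ∧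
        (N - p).primeFactorsList.length ≤ r ∧
        ∀ q : ℕ, q.Prime → q ∣ (N - p) → (N : ℝ) ^ (θ / 9) ≤ q) := by
    intro p hp
    unfold Pool.Agent.Z476.gd at hp
    rw [mem_filter] at hp ⊢
    obtain ⟨b1, b2, b3, b4, b5, b6⟩ := hp
    refine ⟨?_, b2, by linarith, b4, b5, b6⟩
    rw [mem_range]
    have : (p : ℝ) < N := by linarith
    exact_mod_cast this
  exact_mod_cast card_le_card h3

open Classical in
lemma fewExc (r : ℕ) (θ c : ℝ) (hc : c = r + 1 - Real.log 4 / Real.log 3) (hθ0 : 0 < θ) (hθ1 : θ < 1)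
    (hcθ : 1 < c * θ) (ε : ℝ) (hε : 0 < ε) :
    ∃ δ C : ℝ, 0 < δ ∧ 0 < C ∧ ∀ X : ℕ, 1 ≤ X →
      (((Icc 1 X).filter (fun N : ℕ => Even N ∧
        (smallPrimes r θ ((N : ℝ) ^ (1 / (4 * c))) N : ℝ) <
          δ * sing N * ((N : ℝ) ^ θ / Real.log N ^ 2))).card : ℝ) ≤
      C * (X : ℝ) ^ (max (2 / c - θ) 0 + ε) := by
  obtain ⟨δ, hδ, Y0, H⟩ := Pool.Agent.Z476.few r θ hθ0 hθ1.le c hc hcθ ε hε
  have ha0 : 0 < max (2 / c - θ) 0 + ε := by
    have := le_max_right (2 / c - θ) (0 : ℝ)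
    linarith
  obtain ⟨C, hC, hcum⟩ := Pool.Agent.Y882.cum (fun N : ℕ => Even N ∧
        (smallPrimes r θ ((N : ℝ) ^ (1 / (4 * c))) N : ℝ) <
          δ / 2 * sing N * ((N : ℝ) ^ θ / Real.log N ^ 2)) _ ha0
    (max Y0 3) (by
    intro Y hY
    have hY0 : Y0 ≤ Y := (le_max_left _ _).trans hY
    have hY3 : 3 ≤ Y := (le_max_right _ _).trans hY
    have hYr : (3 : ℝ) ≤ Y := by exact_mod_cast hY3
    have hYp : (0 : ℝ) < Y := by linarith
    have hlY : 0 < Real.log Y := Real.log_pos (by linarith)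
    have hxY : (Y : ℝ) ^ θ ≤ Y := by
      calc (Y : ℝ) ^ θ ≤ (Y : ℝ) ^ (1 : ℝ) :=
            Real.rpow_le_rpow_of_exponent_le (by linarith) hθ1.le
        _ = Y := Real.rpow_one _
    have hx0 : 0 < (Y : ℝ) ^ θ := by positivity
    have h1 := H Y hY0 ((Y : ℝ) ^ θ) le_rfl hxY
    refine le_trans ?_ h1
    have hsub : (Ioc Y (2 * Y)).filter (fun N : ℕ => Even N ∧
        (smallPrimes r θ ((N : ℝ) ^ (1 / (4 * c))) N : ℝ) <
          δ / 2 * sing N * ((N : ℝ) ^ θ / Real.log N ^ 2)) ⊆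
        (Ioc Y (2 * Y)).filter (fun n : ℕ => Even n ∧
          ((Pool.Agent.Z476.gd r ((Y : ℝ) ^ θ) ((n : ℝ) ^ (1 / (4 * c))) n).card : ℝ) <
          δ * (Y : ℝ) ^ θ / Real.log Y ^ 2 * Pool.Agent.Y882.sgs n) := by
      intro N hN
      rw [mem_filter, mem_Ioc] at hN ⊢
      obtain ⟨⟨hN1, hN2⟩, hev, hlt⟩ := hN
      refine ⟨⟨hN1, hN2⟩, hev, ?_⟩
      have hN1r : (Y : ℝ) < N := by exact_mod_cast hN1
      have hN2r : (N : ℝ) ≤ 2 * Y := by exact_mod_cast hN2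
      have hN0 : (1 : ℝ) ≤ N := by linarith
      have hp1 : (Y : ℝ) ^ θ ≤ (N : ℝ) ^ θ := Real.rpow_le_rpow hYp.le hN1r.le hθ0.le
      have hp2 : (N : ℝ) ^ θ ≤ 2 * (Y : ℝ) ^ θ := by
        calc (N : ℝ) ^ θ ≤ (2 * (Y : ℝ)) ^ θ := Real.rpow_le_rpow (by linarith) hN2r hθ0.le
          _ = 2 ^ θ * (Y : ℝ) ^ θ := Real.mul_rpow (by norm_num) hYp.le
          _ ≤ 2 * (Y : ℝ) ^ θ := by
              apply mul_le_mul_of_nonneg_right _ hx0.le
              calc (2 : ℝ) ^ θ ≤ 2 ^ (1 : ℝ) :=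
                    Real.rpow_le_rpow_of_exponent_le (by norm_num) hθ1.le
                _ = 2 := Real.rpow_one _
      have hlN : Real.log Y ≤ Real.log N := Real.log_le_log (by linarith) hN1r.le
      have hsg := Pool.Agent.Y882.one_le_sgs N
      have h3 : Pool.Agent.Z476.gd r ((Y : ℝ) ^ θ) ((N : ℝ) ^ (1 / (4 * c))) N ⊆
          (range N).filter (fun p : ℕ => p.Prime ∧ (N : ℝ) ^ θ / 4 < p ∧ (p : ℝ) < (N : ℝ) ^ θ ∧
            (N - p).primeFactorsList.length ≤ r ∧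
            ∀ q : ℕ, q.Prime → q ∣ (N - p) → (N : ℝ) ^ (1 / (4 * c)) ≤ q) := by
        intro p hp
        unfold Pool.Agent.Z476.gd at hp
        rw [mem_filter] at hp ⊢
        obtain ⟨a1, a2, a3, a4, a5, a6⟩ := hp
        refine ⟨?_, a2, by linarith, by linarith, a5, a6⟩
        rw [mem_range]
        have : (p : ℝ) < N := by linarith
        exact_mod_cast this
      have h4 : ((Pool.Agent.Z476.gd r ((Y : ℝ) ^ θ) ((N : ℝ) ^ (1 / (4 * c))) N).card : ℝ) ≤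
          (smallPrimes r θ ((N : ℝ) ^ (1 / (4 * c))) N : ℝ) := by
        unfold smallPrimes
        exact_mod_cast card_le_card h3
      have h5 : δ / 2 * sing N * ((N : ℝ) ^ θ / Real.log N ^ 2) ≤
          δ * (Y : ℝ) ^ θ / Real.log Y ^ 2 * Pool.Agent.Y882.sgs N := by
        have h6 : (N : ℝ) ^ θ / Real.log N ^ 2 ≤ 2 * (Y : ℝ) ^ θ / Real.log Y ^ 2 := by
          apply div_le_div₀ (by positivity) hp2 (by positivity)
          exact pow_le_pow_left₀ hlY.le hlN 2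
        rw [sing_eq]
        calc δ / 2 * Pool.Agent.Y882.sgs N * ((N : ℝ) ^ θ / Real.log N ^ 2) ≤
            δ / 2 * Pool.Agent.Y882.sgs N * (2 * (Y : ℝ) ^ θ / Real.log Y ^ 2) :=
              mul_le_mul_of_nonneg_left h6 (mul_nonneg (by linarith) (by linarith))
          _ = _ := by ring
      linarith
    have := card_le_card hsub
    exact_mod_cast this)
  exact ⟨δ / 2, C, by positivity, hC, hcum⟩

open Classical in
/-- **Small primes `p` such that `N - p` is an almost prime.** Let `0 < θ < 1` and `c = r + 1 - log 4 / log 3`.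
(1) If `θ > 2 / c`, there are `δ > 0` and `N₀` such that every even `N ≥ N₀` has at least
`δ sing N N ^ θ / (log N) ^ 2` primes `p` with `N ^ θ / 4 < p < N ^ θ` such that `N - p` has at most `r` prime
factors, all of them at least `N ^ (θ / 9)`.
(2) If `θ > 1 / c` and `ε > 0`, there are `δ, C > 0` such that for every `X ≥ 1` all but at most
`C X ^ (max (2 / c - θ) 0 + ε)` of the even `N ≤ X` have at least `δ sing N N ^ θ / (log N) ^ 2` such primes, with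
all prime factors of `N - p` at least `N ^ (1 / (4 c))`. -/
theorem result (r : ℕ) (θ c : ℝ) (hc : c = r + 1 - Real.log 4 / Real.log 3) (hθ0 : 0 < θ) (hθ1 : θ < 1) :
    (2 < c * θ → ∃ δ : ℝ, 0 < δ ∧ ∃ N₀ : ℕ, ∀ N : ℕ, N₀ ≤ N → Even N →
      δ * sing N * ((N : ℝ) ^ θ / Real.log N ^ 2) ≤ (smallPrimes r θ ((N : ℝ) ^ (θ / 9)) N : ℝ)) ∧
    (1 < c * θ → ∀ ε : ℝ, 0 < ε → ∃ δ C : ℝ, 0 < δ ∧ 0 < C ∧ ∀ X : ℕ, 1 ≤ X →
      (((Icc 1 X).filter (fun N : ℕ => Even N ∧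
        (smallPrimes r θ ((N : ℝ) ^ (1 / (4 * c))) N : ℝ) <
          δ * sing N * ((N : ℝ) ^ θ / Real.log N ^ 2))).card : ℝ) ≤
      C * (X : ℝ) ^ (max (2 / c - θ) 0 + ε)) :=
  ⟨fun h => every r θ c hc hθ0 hθ1 h, fun h ε hε => fewExc r θ c hc hθ0 hθ1 h ε hε⟩

end Pool.Agent.Results.MP_bae66e_nt.LeastPrimeOfAlmostGoldbach
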