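import Pool.Agent.H602SS.FinalT

set_option autoImplicit false

/-!
# Large least primes in the Goldbach representations of popular sums of three arbitrary dense sets

Let `F(x) = log x (log₂ x)³ log₄ x / (log₃ x)²`. The largest values of the least prime `g(m)` in the Goldbach
representations of an even number `m ≤ x` that are known to occur are of the order `F(x)` (starting files,
`LeastSummand`). We show that they are found in the sum of ANY three dense sets whose sums are even.

A finite set of integers is *dense at the scale `N`* if it is a set of at least `δ N` elements of an interval of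
`N` integers, or a set of at least `δ N / log N` numbers `x + p`, or `x - p`, with `p ≤ N` prime (`x` fixed);
nothing else is assumed of it. Let `A`, `B`, `C` be dense at the scale `N` such that all the sums `a + b + c` are
even. There are at least `N ^ (1 - ε)` even integers `m` such that

* `m` has `≫ |A| |B| |C| / N` representations `m = a + b + c` with `a ∈ A`, `b ∈ B`, `c ∈ C`, and
* every prime `p` with `m - p` prime, and every prime `p` with `m + p` prime, is larger than `κ F(N)`.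

For instance (theorem `sums_of_three_primes`): if `W` is a set of primes of positive relative upper density and `h`
is odd, then for infinitely many `N` there are `p₁, p₂, p₃ ≤ N` in `W` such that the even number
`m = p₁ + p₂ + p₃ + h` is not of the form `p + q` with primes `p ≤ κ F(N)` and `q`. Theorem `sums_of_three_even`:
the same for the sums of three elements of a set of even numbers of positive upper density.

Method. More generally (`Pool.Agent.H602SS.finalT`) for every set `T` of at most `κ f(N)` integers of absolute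
value at most `κ log N (log₂ N)³`, where `f(N) = F(N) / log₂ N`, there are many popular sums `m` such that all
the numbers `m + t`, `t ∈ T`, are composite. Here `T` consists of the primes up to `κ F(N)` and their negatives.
As in `MP_028722_nt.SumsOfThreeDenseSets` (large spectra, by a restriction theorem for the primes) there is a set
`S` of boundedly many primes such that every residue class modulo the product `P` of the primes `p ≤ c log N`,
`p ∉ S`, contains integers with many representations, and the number of the representations is almost unchanged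
under the translations by the multiples of `P r`, for a common approximate period `r`. The class is chosen such
that the small primes sift `T`: the medium primes with a shift that is found by averaging (the number of the
integers up to `log N (log₂ N)³` without medium prime factors), the smaller ones greedily; the numbers that are
left are covered by larger primes with the covering theorem of the starting files.
-/

open Finset

namespace Pool.Agent.Results.MP_bae66e_nt.SumsOfThreeDenseSets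

/-- `F(x) = log x (log₂ x)³ log₄ x / (log₃ x)²` (iterated natural logarithms). -/
noncomputable def F (x : ℝ) : ℝ :=
  Real.log x * (Real.log (Real.log x)) ^ 3 * Real.log (Real.log (Real.log (Real.log x))) /
    (Real.log (Real.log (Real.log x))) ^ 2

/-- `A` is dense at the scale `N`: either `A` is a set of at least `δ N` elements of an interval of `N`
integers, or `A` is a set of at least `δ N / log N` integers of the form `x + p`, or of the form `x - p`, with
`p ≤ N` prime and `x` fixed. -/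
def Dense (δ : ℝ) (N : ℕ) (A : Finset ℤ) : Prop :=
  (∃ x : ℤ, A ⊆ Ioc x (x + N) ∧ δ * N ≤ A.card) ∨
  ∃ x s : ℤ, (s = 1 ∨ s = -1) ∧ (∀ a ∈ A, ∃ p : ℕ, p.Prime ∧ p ≤ N ∧ a = x + s * p) ∧
    δ * (N / Real.log N) ≤ A.card

/-- The number of representations `m = a + b + c`, `a ∈ A`, `b ∈ B`, `c ∈ C`. -/
def reps (A B C : Finset ℤ) (m : ℤ) : ℕ :=
  ((A ×ˢ (B ×ˢ C)).filter (fun t => t.1 + t.2.1 + t.2.2 = m)).card

/-- For all `δ, ε > 0` there are `κ, c > 0` and `N₀` such that for all `N ≥ N₀` and any three sets `A`, `B`, `C`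
which are dense at the scale `N` and such that all the sums `a + b + c` are even, there are at least
`N ^ (1 - ε)` even integers `m` with at least `c |A| |B| |C| / N` representations `m = a + b + c`, such that every
prime `p` for which `m - p` or `m + p` is a prime number is larger than `κ F(N)`. -/
theorem result (δ ε : ℝ) (hδ : 0 < δ) (hε : 0 < ε) : ∃ κ : ℝ, 0 < κ ∧ ∃ c : ℝ, 0 < c ∧
    ∃ N₀ : ℕ, ∀ N : ℕ, N₀ ≤ N →
    ∀ A B C : Finset ℤ, Dense δ N A → Dense δ N B → Dense δ N C →
    (∀ a ∈ A, ∀ b ∈ B, ∀ c ∈ C, Even (a + b + c)) →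
    ∃ 𝒮 : Finset ℤ, (N : ℝ) ^ (1 - ε) ≤ 𝒮.card ∧ ∀ m ∈ 𝒮, Even m ∧
      c * (A.card * B.card * C.card / N) ≤ reps A B C m ∧
      ∀ p q : ℕ, p.Prime → q.Prime → ((p : ℤ) + q = m ∨ m + p = q) → κ * F N < p := by
  obtain ⟨κ, hκ, c, hc, N₀, h⟩ := Pool.Agent.H602SS.goldT δ ε hδ hε
  refine ⟨κ, hκ, c, hc, N₀, fun N hN A B C hA hB hC hev => ?_⟩
  obtain ⟨𝒮, h1, h2⟩ := h N hN A B C hA hB hC
  refine ⟨𝒮, h1, fun m hm => ?_⟩
  obtain ⟨h3, h4, h5⟩ := h2 m hm
  refine ⟨?_, h4, ?_⟩
  · obtain ⟨t, ht⟩ := card_pos.1 h3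
    rw [mem_filter, mem_product, mem_product] at ht
    rw [← ht.2]
    exact hev _ ht.1.1 _ ht.1.2.1 _ ht.1.2.2
  · intro p q hp hq hpq
    by_contra hcon
    rw [not_lt] at hcon
    obtain ⟨⟨r, hr, -, hrd, hrl⟩, ⟨r', hr', -, hrd', hrl'⟩⟩ := h5 p hp hcon
    rcases hpq with hpq | hpq
    · have e : m - (p : ℤ) = q := by omega
      rw [e] at hrd hrl
      have h6 : r ∣ q := by exact_mod_cast hrd
      have h7 := (Nat.prime_dvd_prime_iff_eq hr hq).1 h6
      rw [h7, Nat.abs_cast] at hrl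
      exact lt_irrefl _ hrl
    · rw [hpq] at hrd' hrl'
      have h6 : r' ∣ q := by exact_mod_cast hrd'
      have h7 := (Nat.prime_dvd_prime_iff_eq hr' hq).1 h6
      rw [h7, Nat.abs_cast] at hrl'
      exact lt_irrefl _ hrl'

/-- A consequence: if `E` is a set of even numbers of positive upper density, then there is `κ > 0` such that for
infinitely many `N` there are `a, b, c ≤ N` in `E` such that `p > κ F(N)` for all primes `p`, `q` with
`p + q = a + b + c`. -/
theorem sums_of_three_even (E : Set ℕ) (hE : ∀ a ∈ E, Even a) (δ : ℝ) (hδ : 0 < δ)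
    (hd : ∃ᶠ N : ℕ in Filter.atTop, δ * N ≤ ((E ∩ Set.Icc 1 N).ncard : ℝ)) :
    ∃ κ : ℝ, 0 < κ ∧ ∃ᶠ N : ℕ in Filter.atTop, ∃ a ∈ E, ∃ b ∈ E, ∃ c ∈ E,
      a ≤ N ∧ b ≤ N ∧ c ≤ N ∧ ∀ p q : ℕ, p.Prime → q.Prime → p + q = a + b + c → κ * F N < p := by
  classical
  obtain ⟨κ, hκ, c, hc, N₀, h⟩ := result δ 1 hδ one_pos
  refine ⟨κ, hκ, ?_⟩
  refine (hd.and_eventually (Filter.eventually_ge_atTop (max N₀ 3))).mono ?_
  rintro N ⟨hN, hN0⟩
  have hN3 : 3 ≤ N := (le_max_right _ _).trans hN0
  obtain ⟨A, hA⟩ : ∃ A : Finset ℤ, A = ((Icc 1 N).filter (fun p => p ∈ E)).image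
      (fun p : ℕ => (p : ℤ)) := ⟨_, rfl⟩
  have hmem : ∀ a ∈ A, ∃ p : ℕ, p ∈ E ∧ 1 ≤ p ∧ p ≤ N ∧ a = p := by
    intro a ha
    rw [hA, mem_image] at ha
    obtain ⟨p, hp, rfl⟩ := ha
    rw [mem_filter, mem_Icc] at hp
    exact ⟨p, hp.2, hp.1.1, hp.1.2, rfl⟩
  have hcard : A.card = (E ∩ Set.Icc 1 N).ncard := by
    rw [hA, card_image_of_injective _ Nat.cast_injective, ← Set.ncard_coe_finset]
    congr 1
    ext p
    simp only [coe_filter, mem_Icc, Set.mem_ofPred_eq, Set.mem_inter_iff, Set.mem_Icc]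
    tauto
  have hN0' : (0 : ℝ) < N := by exact_mod_cast (by omega : 0 < N)
  have hApos : (0 : ℝ) < A.card := by
    rw [hcard]
    exact lt_of_lt_of_le (by positivity) hN
  have hAd : Dense δ N A := by
    refine Or.inl ⟨0, fun a ha => ?_, by rw [hcard]; exact hN⟩
    obtain ⟨p, hp, hp1, hpN, rfl⟩ := hmem a ha
    rw [mem_Ioc]
    omega
  obtain ⟨S, hS1, hS⟩ := h N ((le_max_left _ _).trans hN0) A A A hAd hAd hAd (by
    intro a ha b hb c hc
    obtain ⟨p₁, w1, -, -, rfl⟩ := hmem _ ha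
    obtain ⟨p₂, w2, -, -, rfl⟩ := hmem _ hb
    obtain ⟨p₃, w3, -, -, rfl⟩ := hmem _ hc
    have h1 : Even (p₁ + p₂ + p₃) := ((hE _ w1).add (hE _ w2)).add (hE _ w3)
    exact_mod_cast h1)
  have hSne : S.Nonempty := by
    rw [← card_pos]
    have : (0 : ℝ) < S.card := lt_of_lt_of_le (by positivity) hS1
    exact_mod_cast this
  obtain ⟨n, hn⟩ := hSne
  obtain ⟨-, h1, h2⟩ := hS n hn
  have h3 : (0 : ℝ) < reps A A A n := lt_of_lt_of_le (by positivity) h1
  have h4 : 0 < reps A A A n := by exact_mod_cast h3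
  obtain ⟨t, ht⟩ := card_pos.1 h4
  rw [mem_filter, mem_product, mem_product] at ht
  obtain ⟨⟨ha, hb, hc'⟩, ht⟩ := ht
  obtain ⟨p₁, w1, -, l1, e1⟩ := hmem _ ha
  obtain ⟨p₂, w2, -, l2, e2⟩ := hmem _ hb
  obtain ⟨p₃, w3, -, l3, e3⟩ := hmem _ hc'
  refine ⟨p₁, w1, p₂, w2, p₃, w3, l1, l2, l3, ?_⟩
  intro p q hp hq hpq
  refine h2 p q hp hq (Or.inl ?_)
  rw [← ht, e1, e2, e3]
  exact_mod_cast hpq

/-- A consequence: if `W` is a set of primes of positive relative upper density and `h` is odd, then there is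
`κ > 0` such that for infinitely many `N` there are `p₁, p₂, p₃ ≤ N` in `W` such that `p > κ F(N)` for all primes
`p`, `q` with `p + q = p₁ + p₂ + p₃ + h`. -/
theorem sums_of_three_primes (W : Set ℕ) (hW : ∀ p ∈ W, p.Prime) (h : ℤ) (hh : Odd h) (δ : ℝ) (hδ : 0 < δ)
    (hd : ∃ᶠ N : ℕ in Filter.atTop, δ * (N / Real.log N) ≤ ((W ∩ Set.Icc 1 N).ncard : ℝ)) :
    ∃ κ : ℝ, 0 < κ ∧ ∃ᶠ N : ℕ in Filter.atTop, ∃ p₁ ∈ W, ∃ p₂ ∈ W, ∃ p₃ ∈ W,
      p₁ ≤ N ∧ p₂ ≤ N ∧ p₃ ≤ N ∧ ∀ p q : ℕ, p.Prime → q.Prime →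
        (p : ℤ) + q = p₁ + p₂ + p₃ + h → κ * F N < p := by
  classical
  obtain ⟨κ, hκ, c, hc, N₀, hres⟩ := result (δ / 2) 1 (by positivity) one_pos
  refine ⟨κ, hκ, ?_⟩
  have hev : ∀ᶠ N : ℕ in Filter.atTop, 2 / δ ≤ (N : ℝ) / Real.log N := by
    have h1 := (Real.isLittleO_log_id_atTop).def (show (0 : ℝ) < δ / 2 by positivity)
    have tN : Filter.Tendsto (fun N : ℕ => (N : ℝ)) Filter.atTop Filter.atTop :=
      tendsto_natCast_atTop_atTop
    filter_upwards [tN.eventually h1, Filter.eventually_ge_atTop 3] with N hN hN3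
    have hN1 : (1 : ℝ) < N := by exact_mod_cast (by omega : 1 < N)
    have hl := Real.log_pos hN1
    simp only [id, Real.norm_eq_abs] at hN
    rw [abs_of_pos hl, abs_of_pos (by linarith)] at hN
    rw [div_le_div_iff₀ hδ hl]
    linarith
  refine (hd.and_eventually (hev.and (Filter.eventually_ge_atTop (max N₀ 3)))).mono ?_
  rintro N ⟨hN, hN1, hN0⟩
  have hN3 : 3 ≤ N := (le_max_right _ _).trans hN0
  obtain ⟨A, hA⟩ : ∃ A : Finset ℤ, A = ((Icc 3 N).filter (fun p => p ∈ W)).image
      (fun p : ℕ => (p : ℤ)) := ⟨_, rfl⟩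
  obtain ⟨C, hC⟩ : ∃ C : Finset ℤ, C = ((Icc 3 N).filter (fun p => p ∈ W)).image
      (fun p : ℕ => h + (p : ℤ)) := ⟨_, rfl⟩
  have hmem : ∀ a ∈ A, ∃ p : ℕ, p ∈ W ∧ p ≤ N ∧ Odd (p : ℤ) ∧ a = p := by
    intro a ha
    rw [hA, mem_image] at ha
    obtain ⟨p, hp, rfl⟩ := ha
    rw [mem_filter, mem_Icc] at hp
    have h1 : Odd p := (hW p hp.2).odd_of_ne_two (by omega)
    exact ⟨p, hp.2, hp.1.2, by exact_mod_cast h1, rfl⟩
  have hmemC : ∀ a ∈ C, ∃ p : ℕ, p ∈ W ∧ p ≤ N ∧ Odd (p : ℤ) ∧ a = h + p := by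
    intro a ha
    rw [hC, mem_image] at ha
    obtain ⟨p, hp, rfl⟩ := ha
    rw [mem_filter, mem_Icc] at hp
    have h1 : Odd p := (hW p hp.2).odd_of_ne_two (by omega)
    exact ⟨p, hp.2, hp.1.2, by exact_mod_cast h1, rfl⟩
  have hcardF : (W ∩ Set.Icc 1 N).ncard ≤ ((Icc 3 N).filter (fun p => p ∈ W)).card + 1 := by
    have h1 : W ∩ Set.Icc 1 N ⊆ ((insert 2 ((Icc 3 N).filter (fun p => p ∈ W)) : Finset ℕ) : Set ℕ) := by
      intro p hp
      rw [Finset.mem_coe, mem_insert, mem_filter, mem_Icc]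
      have h2 := (hW p hp.1).two_le
      have h3 : p ≤ N := hp.2.2
      by_cases h4 : p = 2
      · exact Or.inl h4
      · exact Or.inr ⟨⟨by omega, h3⟩, hp.1⟩
    have h2 := Set.ncard_le_ncard h1 (Finset.finite_toSet _)
    rw [Set.ncard_coe_finset] at h2
    exact h2.trans (card_insert_le _ _)
  have hcardA : A.card = ((Icc 3 N).filter (fun p => p ∈ W)).card := by
    rw [hA, card_image_of_injective _ Nat.cast_injective]
  have hcardC : C.card = ((Icc 3 N).filter (fun p => p ∈ W)).card := by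
    rw [hC, card_image_of_injective]
    intro a b e
    simp only at e
    omega
  have hlog : 0 < Real.log N := Real.log_pos (by exact_mod_cast (by omega : 1 < N))
  have hN0' : (0 : ℝ) < N := by exact_mod_cast (by omega : 0 < N)
  have hbig : δ / 2 * (N / Real.log N) ≤ ((Icc 3 N).filter (fun p => p ∈ W)).card := by
    have h1 : ((W ∩ Set.Icc 1 N).ncard : ℝ) ≤ ((Icc 3 N).filter (fun p => p ∈ W)).card + 1 := by
      exact_mod_cast hcardF
    have h2 : 1 ≤ δ / 2 * (N / Real.log N) := by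
      rw [div_le_iff₀ hδ] at hN1
      linarith
    linarith
  have hpos : (0 : ℝ) < ((Icc 3 N).filter (fun p => p ∈ W)).card :=
    lt_of_lt_of_le (by positivity) hbig
  have hAd : Dense (δ / 2) N A := by
    refine Or.inr ⟨0, 1, Or.inl rfl, fun a ha => ?_, by rw [hcardA]; exact hbig⟩
    obtain ⟨p, hp, hpN, -, rfl⟩ := hmem a ha
    exact ⟨p, hW p hp, hpN, by ring⟩
  have hCd : Dense (δ / 2) N C := by
    refine Or.inr ⟨h, 1, Or.inl rfl, fun a ha => ?_, by rw [hcardC]; exact hbig⟩
    obtain ⟨p, hp, hpN, -, rfl⟩ := hmemC a ha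
    exact ⟨p, hW p hp, hpN, by ring⟩
  obtain ⟨S, hS1, hS⟩ := hres N ((le_max_left _ _).trans hN0) A A C hAd hAd hCd (by
    intro a ha b hb c hc
    obtain ⟨p₁, -, -, o1, rfl⟩ := hmem _ ha
    obtain ⟨p₂, -, -, o2, rfl⟩ := hmem _ hb
    obtain ⟨p₃, -, -, o3, rfl⟩ := hmemC _ hc
    exact (o1.add_odd o2).add (hh.add_odd o3))
  have hSne : S.Nonempty := by
    rw [← card_pos]
    have : (0 : ℝ) < S.card := lt_of_lt_of_le (by positivity) hS1
    exact_mod_cast this
  obtain ⟨n, hn⟩ := hSne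
  obtain ⟨-, h1, h2⟩ := hS n hn
  have hApos : (0 : ℝ) < A.card := by rw [hcardA]; exact hpos
  have hCpos : (0 : ℝ) < C.card := by rw [hcardC]; exact hpos
  have h3 : (0 : ℝ) < reps A A C n := lt_of_lt_of_le (by positivity) h1
  have h4 : 0 < reps A A C n := by exact_mod_cast h3
  obtain ⟨t, ht⟩ := card_pos.1 h4
  rw [mem_filter, mem_product, mem_product] at ht
  obtain ⟨⟨ha, hb, hc'⟩, ht⟩ := ht
  obtain ⟨p₁, w1, l1, -, e1⟩ := hmem _ ha
  obtain ⟨p₂, w2, l2, -, e2⟩ := hmem _ hb
  obtain ⟨p₃, w3, l3, -, e3⟩ := hmemC _ hc'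
  refine ⟨p₁, w1, p₂, w2, p₃, w3, l1, l2, l3, ?_⟩
  intro p q hp hq hpq
  refine h2 p q hp hq (Or.inl ?_)
  rw [← ht, e1, e2, e3, hpq]
  ring

end Pool.Agent.Results.MP_bae66e_nt.SumsOfThreeDenseSets
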